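import Pool.Agent.Helper536.LK.St
import Pool.Agent.Helper536.LK.MFin
import Pool.Agent.Helper536.LK.AllA
import Pool.Agent.Helper536.Kb.Khol

/-! A complete Kaehler manifold diffeomorphic to Euclidean space without nonconstant holomorphic
functions. -/

open Bundle Manifold Pool.Agent.Helper536.LK Pool.Agent.Helper536.LK.St
open scoped ContDiff Manifold

namespace Pool.Agent.Results.MP_64e65e_gt.KaehlerNoFunctions

/-- For some `n ≥ 1` there is a complete Kaehler manifold `M` of complex dimension `n`,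
diffeomorphic to `ℝ^{2n}`, on which every holomorphic function is constant. -/
theorem result : ∃ (n : ℕ) (E : Type) (_ : NormedAddCommGroup E) (_ : NormedSpace ℂ E)
    (_ : NormedSpace ℝ E) (_ : IsScalarTower ℝ ℂ E) (M : Type) (_ : MetricSpace M)
    (_ : ChartedSpace E M),
    1 ≤ n ∧ Module.finrank ℂ E = n ∧ CompleteSpace M ∧ KaehlerDist E M ∧
    DiffeoTo E M (EuclideanSpace ℝ (Fin (2 * n))) ∧
    ∀ f : M → ℂ, MDifferentiable 𝓘(ℂ, E) 𝓘(ℂ, ℂ) f → ∃ c : ℂ, ∀ x, f x = c := by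
  obtain ⟨n, k, c, r, q, Λ, h⟩ := Pool.Agent.Helper536.KB.Khol.kallin_hol
  have hK : Kallin n := ⟨k, c, r, q, Λ, h⟩
  have hE : Module.finrank ℂ (EuclideanSpace ℂ (Fin (n + 1))) = n + 1 := by simp
  obtain ⟨T⟩ := tower_exists hK hE
  obtain ⟨M, i1, i2, i3, i4, i5, i6, i7, h1, h2, h3, h4⟩ := final_T T (n + 1) hE
  have h2' : St.IsKaehler (EuclideanSpace ℂ (Fin (n + 1))) M := by
    exact ⟨h2.hermitian, h2.smooth, fun x₀ => h2.closed x₀⟩
  exact ⟨n + 1, EuclideanSpace ℂ (Fin (n + 1)), inferInstance, inferInstance,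
    NormedSpace.complexToReal, inferInstance, M, i1, i2, by omega, hE, h1,
    ⟨i3, i4, i5, i6, i7, h2'⟩, h3, h4⟩

end Pool.Agent.Results.MP_64e65e_gt.KaehlerNoFunctions
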